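import Mathlib

/-!
# MP_dfec24: the iterated images of generalized Thue-Morse words under `S` are not always rich

The word `S^9(t_{6,2})` is not rich: its first `34` letters contain only `34` distinct palindromes.
-/

set_option autoImplicit false

namespace Pool.Agent.Results.MP_dfec24_co.NotRich

/-- The operation `S`: sum of consecutive letters modulo `2`. -/
def S (u : ℕ → ℕ) : ℕ → ℕ := fun n => (u n + u (n + 1)) % 2

/-- The generalized Thue-Morse word `t_{b,2}`: sum of the digits in base `b` modulo `2`. -/
def t (b : ℕ) : ℕ → ℕ := fun n => (Nat.digits b n).sum % 2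

/-- The factor of length `n` of `u` that starts at position `i`. -/
def factor (u : ℕ → ℕ) (i n : ℕ) : List ℕ := (List.range n).map fun j => u (i + j)

/-- A finite word is rich if it has `|w| + 1` distinct palindromic factors (with the empty word). -/
def IsRich (w : List ℕ) : Prop := {p : List ℕ | p <:+: w ∧ p.reverse = p}.ncard = w.length + 1

/-- An infinite word is rich if every one of its finite factors is rich. -/
def IsRichWord (u : ℕ → ℕ) : Prop := ∀ i n : ℕ, IsRich (factor u i n)

/-- The palindromic factors of a finite word, computed. -/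
def pals (w : List ℕ) : Finset (List ℕ) :=
  ((w.tails.flatMap List.inits).filter fun p => p.reverse = p).toFinset

theorem pals_coe (w : List ℕ) : {p : List ℕ | p <:+: w ∧ p.reverse = p} = (pals w : Set _) := by
  ext p
  simp only [pals, Set.mem_ofPred_eq, List.coe_toFinset, List.mem_filter, List.mem_flatMap,
    List.mem_tails, List.mem_inits, decide_eq_true_eq, List.infix_iff_prefix_suffix]
  constructor
  · rintro ⟨⟨s, h1, h2⟩, h3⟩; exact ⟨⟨s, h2, h1⟩, h3⟩
  · rintro ⟨⟨s, h1, h2⟩, h3⟩; exact ⟨⟨s, h2, h1⟩, h3⟩

/-- Sums of consecutive letters modulo `2` of a finite word. -/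
def sList : List ℕ → List ℕ
  | a :: b :: l => (a + b) % 2 :: sList (b :: l)
  | _ => []

theorem factor_succ (u : ℕ → ℕ) (i n : ℕ) : factor u i (n + 1) = u i :: factor u (i + 1) n := by
  unfold factor
  rw [List.range_succ_eq_map, List.map_cons, List.map_map]
  simp only [Nat.add_zero, List.cons.injEq, true_and]
  apply List.map_congr_left
  intro j _
  simp only [Function.comp_apply, Nat.succ_eq_add_one]
  congr 1; omega

theorem factor_S (u : ℕ → ℕ) (i n : ℕ) : factor (S u) i n = sList (factor u i (n + 1)) := by
  induction n generalizing i with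
  | zero => simp [factor, sList]
  | succ n ih =>
    rw [factor_succ (S u) i n, factor_succ u i (n + 1), factor_succ u (i + 1) n, sList,
      ← factor_succ u (i + 1) n, ← ih]
    rfl

theorem factor_iter (u : ℕ → ℕ) (k i n : ℕ) :
    factor (S^[k] u) i n = sList^[k] (factor u i (n + k)) := by
  induction k generalizing u n with
  | zero => rfl
  | succ k ih =>
    rw [Function.iterate_succ_apply, Function.iterate_succ_apply, ih, factor_S]
    congr 2

theorem t_six (n : ℕ) (hn : n < 43) : t 6 n = (n % 6 + n / 6 % 6 + n / 36) % 2 := by
  unfold t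
  interval_cases n <;> norm_num

theorem factor_t : factor (t 6) 0 43 =
    (List.range 43).map fun n => (n % 6 + n / 6 % 6 + n / 36) % 2 := by
  unfold factor
  apply List.map_congr_left
  intro n hn
  rw [List.mem_range] at hn
  rw [Nat.zero_add, t_six n hn]

/-- The answer to Q1 is negative: it is not true that `S^k(t_{b,2})` is rich for all `b ≥ 2` and
all `k ≥ 1` (it fails for `b = 6` and `k = 9`). -/
theorem result : ¬ ∀ b k : ℕ, 2 ≤ b → 1 ≤ k → IsRichWord (S^[k] (t b)) := by
  intro h
  have h1 := h 6 9 (by norm_num) (by norm_num) 0 34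
  unfold IsRich at h1
  rw [pals_coe, Set.ncard_coe_finset, factor_iter, factor_t] at h1
  revert h1
  decide +kernel

end Pool.Agent.Results.MP_dfec24_co.NotRich
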